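import Pool.Agent.H223R3.Radial.Glue

set_option autoImplicit false

open Set Filter Topology

namespace Pool.Agent.H223R3.Radial

/-- Parameters of a chart: for `w ≤ 0` a cubic, on `[0,1]` the polynomial `Y / l`, on `[1, 19/10]`
the function `k / (b - w)²`, and a quadratic polynomial for `w ≥ 19/10`. -/
structure Par where
  Y : ℝ → ℝ
  Y' : ℝ → ℝ
  Y'' : ℝ → ℝ
  l : ℝ
  a : ℝ
  k : ℝ
  b : ℝ
  z1 : ℝ
  z2 : ℝ
  hl : 0 < l
  hk : 0 < k
  hb : 19 / 10 < b
  hz1 : 0 < z1
  hz2 : 0 < z2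
  hY : ∀ x, HasDerivAt Y (Y' x) x
  hY' : ∀ x, HasDerivAt Y' (Y'' x) x
  hY'' : Continuous Y''
  pos : ∀ x, 0 ≤ x → x ≤ 1 → 0 < Y' x
  m00 : Y 0 = 0
  m01 : Y' 0 = 1
  m02 : Y'' 0 = 2 * a
  m10 : Y 1 / l = k / (b - 1) ^ 2
  m11 : Y' 1 / l = 2 * k / (b - 1) ^ 3
  m12 : Y'' 1 / l = 6 * k / (b - 1) ^ 4
  m20 : k / (b - 19 / 10) ^ 2 = 1
  m21 : 2 * k / (b - 19 / 10) ^ 3 = z1
  m22 : 6 * k / (b - 19 / 10) ^ 4 = 2 * z2

namespace Par

variable (P : Par)

noncomputable def L : ℝ → ℝ := fun w => (w + P.a * w ^ 2 + P.a ^ 2 / 2 * w ^ 3) / P.l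
noncomputable def L' : ℝ → ℝ := fun w => (1 + 2 * P.a * w + 3 * P.a ^ 2 / 2 * w ^ 2) / P.l
noncomputable def L'' : ℝ → ℝ := fun w => (2 * P.a + 3 * P.a ^ 2 * w) / P.l
noncomputable def M : ℝ → ℝ := fun w => P.Y w / P.l
noncomputable def M' : ℝ → ℝ := fun w => P.Y' w / P.l
noncomputable def M'' : ℝ → ℝ := fun w => P.Y'' w / P.l
noncomputable def R : ℝ → ℝ := fun w => P.k / (P.b - w) ^ 2
noncomputable def R' : ℝ → ℝ := fun w => 2 * P.k / (P.b - w) ^ 3
noncomputable def R'' : ℝ → ℝ := fun w => 6 * P.k / (P.b - w) ^ 4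
noncomputable def Z : ℝ → ℝ := fun w => 1 + P.z1 * (w - 19 / 10) + P.z2 * (w - 19 / 10) ^ 2
noncomputable def Z' : ℝ → ℝ := fun w => P.z1 + 2 * P.z2 * (w - 19 / 10)
noncomputable def Z'' : ℝ → ℝ := fun _ => 2 * P.z2

noncomputable def X : ℝ → ℝ := glue (glue (glue P.L P.M 0) P.R 1) P.Z (19 / 10)
noncomputable def X' : ℝ → ℝ := glue (glue (glue P.L' P.M' 0) P.R' 1) P.Z' (19 / 10)
noncomputable def X'' : ℝ → ℝ := glue (glue (glue P.L'' P.M'' 0) P.R'' 1) P.Z'' (19 / 10)

lemma hL (w : ℝ) : HasDerivAt P.L (P.L' w) w := by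
  have h1 := (((hasDerivAt_id w).add ((hasDerivAt_pow 2 w).const_mul P.a)).add
    ((hasDerivAt_pow 3 w).const_mul (P.a ^ 2 / 2))).div_const P.l
  refine h1.congr_deriv ?_
  simp only [L', Nat.cast_ofNat, Nat.add_one_sub_one, pow_one]
  ring

lemma hL' (w : ℝ) : HasDerivAt P.L' (P.L'' w) w := by
  have h1 := ((((hasDerivAt_id w).const_mul (2 * P.a)).const_add 1).add
    ((hasDerivAt_pow 2 w).const_mul (3 * P.a ^ 2 / 2))).div_const P.l
  refine (h1.congr_deriv ?_).congr_of_eventuallyEq (Eventually.of_forall fun x => ?_)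
  · simp only [L'', Nat.cast_ofNat, Nat.add_one_sub_one, pow_one]
    ring
  · simp [L']

lemma hM (w : ℝ) : HasDerivAt P.M (P.M' w) w := (P.hY w).div_const _

lemma hM' (w : ℝ) : HasDerivAt P.M' (P.M'' w) w := (P.hY' w).div_const _

lemma hR {w : ℝ} (hw : w < P.b) : HasDerivAt P.R (P.R' w) w := by
  have h0 : P.b - w ≠ 0 := (sub_pos.2 hw).ne'
  have h1 : HasDerivAt (fun w : ℝ => P.b - w) (-1) w := by
    simpa using (hasDerivAt_id w).const_sub P.b
  have h2 := (h1.pow 2).inv (pow_ne_zero 2 h0)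
  have h3 := h2.const_mul P.k
  refine (h3.congr_deriv ?_).congr_of_eventuallyEq (Eventually.of_forall fun x => ?_)
  · simp only [R', Pi.pow_apply]
    field_simp
    norm_num
    ring
  · simp [R, div_eq_mul_inv]

lemma hR' {w : ℝ} (hw : w < P.b) : HasDerivAt P.R' (P.R'' w) w := by
  have h0 : P.b - w ≠ 0 := (sub_pos.2 hw).ne'
  have h1 : HasDerivAt (fun w : ℝ => P.b - w) (-1) w := by
    simpa using (hasDerivAt_id w).const_sub P.b
  have h2 := (h1.pow 3).inv (pow_ne_zero 3 h0)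
  have h3 := h2.const_mul (2 * P.k)
  refine (h3.congr_deriv ?_).congr_of_eventuallyEq (Eventually.of_forall fun x => ?_)
  · simp only [R'', Pi.pow_apply]
    field_simp
    norm_num
    ring
  · simp [R', div_eq_mul_inv]

lemma hZ (w : ℝ) : HasDerivAt P.Z (P.Z' w) w := by
  have h1 : HasDerivAt (fun w : ℝ => w - 19 / 10) 1 w := by
    simpa using (hasDerivAt_id w).sub_const (19 / 10 : ℝ)
  have h2 := ((h1.const_mul P.z1).const_add 1).add ((h1.pow 2).const_mul P.z2)
  refine h2.congr_deriv ?_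
  simp only [Z', Nat.cast_ofNat, Nat.add_one_sub_one, pow_one]
  ring

lemma hZ' (w : ℝ) : HasDerivAt P.Z' (P.Z'' w) w := by
  have h1 : HasDerivAt (fun w : ℝ => w - 19 / 10) 1 w := by
    simpa using (hasDerivAt_id w).sub_const (19 / 10 : ℝ)
  have h2 := (h1.const_mul (2 * P.z2)).const_add P.z1
  refine h2.congr_deriv ?_
  simp [Z'']

lemma hX (x : ℝ) : HasDerivAt P.X (P.X' x) x := by
  refine glue_hasDerivAt (fun hx => ?_) (fun _ => P.hZ x) ?_ ?_
  · refine glue_hasDerivAt (fun _ => ?_) (fun _ => P.hR (by linarith [P.hb])) ?_ ?_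
    · refine glue_hasDerivAt (fun _ => P.hL x) (fun _ => P.hM x) ?_ ?_
      · simp [L, M, P.m00]
      · simp [L', M', P.m01]
    · rw [glue_gt one_pos]; exact P.m10
    · rw [glue_gt one_pos]; exact P.m11
  · rw [glue_gt (by norm_num)]
    simp only [R, Z]
    rw [P.m20]; ring
  · rw [glue_gt (by norm_num)]
    simp only [R', Z']
    rw [P.m21]; ring

lemma hX' (x : ℝ) : HasDerivAt P.X' (P.X'' x) x := by
  refine glue_hasDerivAt (fun hx => ?_) (fun _ => P.hZ' x) ?_ ?_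
  · refine glue_hasDerivAt (fun _ => ?_) (fun _ => P.hR' (by linarith [P.hb])) ?_ ?_
    · refine glue_hasDerivAt (fun _ => P.hL' x) (fun _ => P.hM' x) ?_ ?_
      · simp [L', M', P.m01]
      · simp [L'', M'', P.m02]
    · rw [glue_gt one_pos]; exact P.m11
    · rw [glue_gt one_pos]; exact P.m12
  · rw [glue_gt (by norm_num)]
    simp only [R', Z']
    rw [P.m21]; ring
  · rw [glue_gt (by norm_num)]
    exact P.m22

lemma hX'' : Continuous P.X'' := by
  rw [continuous_iff_continuousAt]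
  intro x
  refine glue_continuousAt (fun hx => ?_) (fun _ => continuousAt_const) ?_
  · refine glue_continuousAt (fun _ => ?_) (fun _ => ?_) ?_
    · refine glue_continuousAt (fun _ => ?_) (fun _ => ?_) ?_
      · exact (by unfold L''; fun_prop : Continuous P.L'').continuousAt
      · exact (P.hY''.div_const _).continuousAt
      · simp [L'', M'', P.m02]
    · have h0 : P.b - x ≠ 0 := by
        have : x < P.b := by linarith [P.hb]
        exact (sub_pos.2 this).ne'
      unfold R''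
      exact ContinuousAt.div continuousAt_const (by fun_prop) (pow_ne_zero 4 h0)
    · rw [glue_gt one_pos]; exact P.m12
  · rw [glue_gt (by norm_num)]
    exact P.m22

lemma X_of_nonpos {w : ℝ} (hw : w ≤ 0) : P.X w = P.L w := by
  unfold X; rw [glue_le (by linarith), glue_le (by linarith), glue_le hw]

lemma X'_of_nonpos {w : ℝ} (hw : w ≤ 0) : P.X' w = P.L' w := by
  unfold X'; rw [glue_le (by linarith), glue_le (by linarith), glue_le hw]

lemma X_mid {w : ℝ} (h0 : 0 ≤ w) (h1 : w ≤ 1) : P.X w = P.Y w / P.l := by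
  unfold X; rw [glue_le (by linarith), glue_le h1, glue_ge h0 (by simp [L, M, P.m00])]
  rfl

lemma X'_mid {w : ℝ} (h0 : 0 ≤ w) (h1 : w ≤ 1) : P.X' w = P.Y' w / P.l := by
  unfold X'; rw [glue_le (by linarith), glue_le h1, glue_ge h0 (by simp [L', M', P.m01])]
  rfl

lemma X''_mid {w : ℝ} (h0 : 0 ≤ w) (h1 : w ≤ 1) : P.X'' w = P.Y'' w / P.l := by
  unfold X''; rw [glue_le (by linarith), glue_le h1, glue_ge h0 (by simp [L'', M'', P.m02])]
  rfl

lemma X_out {w : ℝ} (h0 : 1 < w) (h1 : w ≤ 19 / 10) : P.X w = P.k / (P.b - w) ^ 2 := by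
  unfold X; rw [glue_le h1, glue_gt h0]; rfl

lemma X'_out {w : ℝ} (h0 : 1 < w) (h1 : w ≤ 19 / 10) : P.X' w = 2 * P.k / (P.b - w) ^ 3 := by
  unfold X'; rw [glue_le h1, glue_gt h0]; rfl

lemma X''_out {w : ℝ} (h0 : 1 < w) (h1 : w ≤ 19 / 10) : P.X'' w = 6 * P.k / (P.b - w) ^ 4 := by
  unfold X''; rw [glue_le h1, glue_gt h0]; rfl

lemma X_big {w : ℝ} (h0 : 19 / 10 < w) : P.X w = P.Z w := by
  unfold X; rw [glue_gt h0]

lemma X'_big {w : ℝ} (h0 : 19 / 10 < w) : P.X' w = P.Z' w := by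
  unfold X'; rw [glue_gt h0]

lemma X_zero : P.X 0 = 0 := by
  rw [P.X_of_nonpos le_rfl]; simp [L]

lemma X_end : P.X (19 / 10) = 1 := by
  rw [P.X_out (by norm_num) le_rfl, P.m20]

lemma X'_pos (w : ℝ) : 0 < P.X' w := by
  rcases le_or_gt w 0 with h | h
  · rw [P.X'_of_nonpos h]
    unfold L'
    refine div_pos ?_ P.hl
    nlinarith [sq_nonneg (3 * P.a * w + 2), sq_nonneg (P.a * w)]
  rcases le_or_gt w 1 with h1 | h1
  · rw [P.X'_mid h.le h1]
    exact div_pos (P.pos w h.le h1) P.hl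
  rcases le_or_gt w (19 / 10) with h2 | h2
  · rw [P.X'_out h1 h2]
    have : 0 < P.b - w := by linarith [P.hb]
    have := P.hk
    positivity
  · rw [P.X'_big h2]
    unfold Z'
    have := P.hz1
    have := P.hz2
    have : 0 < w - 19 / 10 := by linarith
    positivity

lemma X_surj : Function.Surjective P.X := by
  have hc : Continuous P.X := continuous_iff_continuousAt.2 fun x => (P.hX x).continuousAt
  refine hc.surjective ?_ ?_
  · have h1 : Tendsto (fun w : ℝ => 1 + P.z1 * (w - 19 / 10)) atTop atTop := by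
      refine tendsto_atTop_add_const_left _ _ ?_
      refine Tendsto.const_mul_atTop P.hz1 ?_
      exact tendsto_atTop_add_const_right _ _ tendsto_id
    refine tendsto_atTop_mono' _ ?_ h1
    filter_upwards [eventually_gt_atTop (19 / 10 : ℝ)] with w hw
    rw [P.X_big hw]
    unfold Z
    have := P.hz2
    nlinarith [sq_nonneg (w - 19 / 10)]
  · have h1 : Tendsto (fun w : ℝ => w * (1 / (2 * P.l))) atBot atBot := by
      have : 0 < 1 / (2 * P.l) := by have := P.hl; positivity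
      exact Tendsto.atBot_mul_const this tendsto_id
    refine tendsto_atBot_mono' _ ?_ h1
    filter_upwards [eventually_le_atBot (0 : ℝ)] with w hw
    rw [P.X_of_nonpos hw]
    unfold L
    have hl := P.hl
    rw [div_le_iff₀ hl]
    have e : w * (1 / (2 * P.l)) * P.l = w / 2 := by field_simp
    rw [e]
    have : 0 ≤ (-w) * (1 + P.a * w) ^ 2 := mul_nonneg (by linarith) (sq_nonneg _)
    nlinarith

/-- The chart of a set of parameters. -/
noncomputable def chart : Chart where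
  X := P.X
  X' := P.X'
  X'' := P.X''
  hX := P.hX
  hX' := P.hX'
  hX'' := P.hX''
  pos := P.X'_pos
  surj := P.X_surj

/-- The solution attached to the parameters. -/
noncomputable def u : ℝ → ℝ := P.chart.u (19 / 10)

lemma W_zero : P.chart.W 0 = 0 := by
  have : P.chart.X 0 = 0 := P.X_zero
  rw [← this, P.chart.W_X, this]

lemma W_one : P.chart.W 1 = 19 / 10 := by
  have : P.chart.X (19 / 10) = 1 := P.X_end
  rw [← this, P.chart.W_X]

lemma u_zero : P.u 0 = 19 / 10 := by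
  unfold u Chart.u
  norm_num
  exact P.W_zero

lemma u_one : P.u 1 = 0 := by
  unfold u Chart.u
  rw [one_pow, P.W_one]; ring

lemma W_lt {r : ℝ} (h0 : 0 ≤ r) (h1 : r < 1) : P.chart.W (r ^ 2) < 19 / 10 := by
  rw [← P.W_one]
  apply P.chart.W_strictMono
  nlinarith

lemma W_pos {r : ℝ} (h0 : 0 < r) : 0 < P.chart.W (r ^ 2) := by
  rw [← P.W_zero]
  apply P.chart.W_strictMono
  positivity

lemma u_pos {r : ℝ} (h0 : 0 ≤ r) (h1 : r < 1) : 0 < P.u r := by
  unfold u Chart.u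
  linarith [P.W_lt h0 h1]

end Par

end Pool.Agent.H223R3.Radial
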