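import Pool.Agent.H223R3.Radial.Charts

set_option autoImplicit false

open Set Filter Topology

namespace Pool.Agent.H223R3.Radial

/-! The two polynomials. -/

noncomputable def Y1 : ℝ → ℝ := fun w => w + 88 * w ^ 2 - 162 * w ^ 3 + 120 * w ^ 4 - 31 * w ^ 5
noncomputable def Y1' : ℝ → ℝ := fun w => 1 + 176 * w - 486 * w ^ 2 + 480 * w ^ 3 - 155 * w ^ 4
noncomputable def Y1'' : ℝ → ℝ := fun w => 176 - 972 * w + 1440 * w ^ 2 - 620 * w ^ 3
noncomputable def Y2 : ℝ → ℝ := fun w => w - w ^ 2 + 2 * w ^ 3 - 2 * w ^ 4 + w ^ 5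
noncomputable def Y2' : ℝ → ℝ := fun w => 1 - 2 * w + 6 * w ^ 2 - 8 * w ^ 3 + 5 * w ^ 4
noncomputable def Y2'' : ℝ → ℝ := fun w => -2 + 12 * w - 24 * w ^ 2 + 20 * w ^ 3

lemma hY1 (w : ℝ) : HasDerivAt Y1 (Y1' w) w := by
  have h := ((((hasDerivAt_id w).add ((hasDerivAt_pow 2 w).const_mul 88)).sub
    ((hasDerivAt_pow 3 w).const_mul 162)).add ((hasDerivAt_pow 4 w).const_mul 120)).sub
    ((hasDerivAt_pow 5 w).const_mul 31)
  refine h.congr_deriv ?_
  simp only [Y1', Nat.cast_ofNat, Nat.add_one_sub_one, pow_one]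
  ring

lemma hY1' (w : ℝ) : HasDerivAt Y1' (Y1'' w) w := by
  have h := (((((hasDerivAt_id w).const_mul 176).const_add 1).sub
    ((hasDerivAt_pow 2 w).const_mul 486)).add ((hasDerivAt_pow 3 w).const_mul 480)).sub
    ((hasDerivAt_pow 4 w).const_mul 155)
  refine h.congr_deriv ?_
  simp only [Y1'', Nat.cast_ofNat, Nat.add_one_sub_one, pow_one]
  ring

lemma hY2 (w : ℝ) : HasDerivAt Y2 (Y2' w) w := by
  have h := ((((hasDerivAt_id w).sub (hasDerivAt_pow 2 w)).add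
    ((hasDerivAt_pow 3 w).const_mul 2)).sub ((hasDerivAt_pow 4 w).const_mul 2)).add
    (hasDerivAt_pow 5 w)
  refine h.congr_deriv ?_
  simp only [Y2', Nat.cast_ofNat, Nat.add_one_sub_one, pow_one]
  ring

lemma hY2' (w : ℝ) : HasDerivAt Y2' (Y2'' w) w := by
  have h := (((((hasDerivAt_id w).const_mul 2).const_sub 1).add
    ((hasDerivAt_pow 2 w).const_mul 6)).sub ((hasDerivAt_pow 3 w).const_mul 8)).add
    ((hasDerivAt_pow 4 w).const_mul 5)
  refine h.congr_deriv ?_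
  simp only [Y2'', Nat.cast_ofNat, Nat.add_one_sub_one, pow_one]
  ring

lemma Y1'_pos {w : ℝ} (h0 : 0 ≤ w) (h1 : w ≤ 1) : 0 < Y1' w := by
  have e : Y1' w = (1 - w) ^ 4 + 180 * w * (1 - w) ^ 3 + 48 * w ^ 2 * (1 - w) ^ 2
      + 40 * w ^ 3 * (1 - w) + 16 * w ^ 4 := by unfold Y1'; ring
  rw [e]
  have h2 : 0 ≤ 1 - w := by linarith
  rcases h0.eq_or_lt with rfl | h
  · norm_num
  · positivity

lemma Y2'_pos {w : ℝ} (h0 : 0 ≤ w) (h1 : w ≤ 1) : 0 < Y2' w := by
  have e : Y2' w = (1 - w) ^ 4 + 2 * w * (1 - w) ^ 3 + 6 * w ^ 2 * (1 - w) ^ 2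
      + 2 * w ^ 3 * (1 - w) + 2 * w ^ 4 := by unfold Y2'; ring
  rw [e]
  have h2 : 0 ≤ 1 - w := by linarith
  rcases h0.eq_or_lt with rfl | h
  · norm_num
  · positivity

/-- Parameters of the first solution. -/
noncomputable def P1 : Par where
  Y := Y1
  Y' := Y1'
  Y'' := Y1''
  l := 6400 / 121
  a := 88
  k := 121 / 100
  b := 3
  z1 := 20 / 11
  z2 := 300 / 121
  hl := by norm_num
  hk := by norm_num
  hb := by norm_num
  hz1 := by norm_num
  hz2 := by norm_num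
  hY := hY1
  hY' := hY1'
  hY'' := by unfold Y1''; fun_prop
  pos := fun _ h0 h1 => Y1'_pos h0 h1
  m00 := by norm_num [Y1]
  m01 := by norm_num [Y1']
  m02 := by norm_num [Y1'']
  m10 := by norm_num [Y1]
  m11 := by norm_num [Y1']
  m12 := by norm_num [Y1'']
  m20 := by norm_num
  m21 := by norm_num
  m22 := by norm_num

/-- Parameters of the second solution. -/
noncomputable def P2 : Par where
  Y := Y2
  Y' := Y2'
  Y'' := Y2''
  l := 100
  a := -1
  k := 1 / 100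
  b := 2
  z1 := 20
  z2 := 300
  hl := by norm_num
  hk := by norm_num
  hb := by norm_num
  hz1 := by norm_num
  hz2 := by norm_num
  hY := hY2
  hY' := hY2'
  hY'' := by unfold Y2''; fun_prop
  pos := fun _ h0 h1 => Y2'_pos h0 h1
  m00 := by norm_num [Y2]
  m01 := by norm_num [Y2']
  m02 := by norm_num [Y2'']
  m10 := by norm_num [Y2]
  m11 := by norm_num [Y2']
  m12 := by norm_num [Y2'']
  m20 := by norm_num
  m21 := by norm_num
  m22 := by norm_num

noncomputable def M1 : ℝ → ℝ := fun w =>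
  6 + 1420 * w + 124794 * w ^ 2 - 322072 * w ^ 3 + 441402 * w ^ 4 - 282100 * w ^ 5
    + 67270 * w ^ 6

noncomputable def M2 : ℝ → ℝ := fun w =>
  6 - 4 * w + 26 * w ^ 2 - 24 * w ^ 3 + 106 * w ^ 4 - 84 * w ^ 5 + 70 * w ^ 6

noncomputable def H : ℝ → ℝ := fun w =>
  1780 + 430280 * w + 30316684 * w ^ 2 - 287054096 * w ^ 3 + 1333776020 * w ^ 4
    - 4252827056 * w ^ 5 + 10904306300 * w ^ 6 - 24658920008 * w ^ 7 + 50007998524 * w ^ 8
    - 87297630520 * w ^ 9 + 124918317972 * w ^ 10 - 141681652448 * w ^ 11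
    + 124503479244 * w ^ 12 - 82848430560 * w ^ 13 + 40358557540 * w ^ 14
    - 13571592200 * w ^ 15 + 2810150000 * w ^ 16 - 269080000 * w ^ 17

noncomputable def E : ℝ → ℝ := fun w =>
  57 / 6400 + 1339 / 800 * w - 1973 / 640 * w ^ 2 + 1831 / 800 * w ^ 3 - 763 / 1280 * w ^ 4

lemma N1_eq (w : ℝ) : 6 * Y1' w ^ 2 - 4 * Y1 w * Y1'' w = (1 - w) ^ 2 * M1 w := by
  unfold Y1 Y1' Y1'' M1; ring

lemma N2_eq (w : ℝ) : 6 * Y2' w ^ 2 - 4 * Y2 w * Y2'' w = (1 - w) ^ 2 * M2 w := by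
  unfold Y2 Y2' Y2'' M2; ring

lemma H_eq (w : ℝ) : M2 w * Y1' w ^ 3 - M1 w * Y2' w ^ 3 = w * H w := by
  unfold M1 M2 Y1' Y2' H; ring

lemma E_eq (w : ℝ) : Y1 w / (6400 / 121) - Y2 w / 100 = w * E w := by
  unfold Y1 Y2 E; ring

lemma H_pos {w : ℝ} (h0 : 0 ≤ w) (h1 : w ≤ 1) : 0 < H w := by
  have e : H w = 1780 * (1 - w) ^ 17 + 460540 * w * (1 - w) ^ 16
      + 37443244 * w ^ 2 * (1 - w) ^ 15 + 220540164 * w ^ 3 * (1 - w) ^ 14
      + 743463696 * w ^ 4 * (1 - w) ^ 13 + 1552553928 * w ^ 5 * (1 - w) ^ 12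
      + 2700986224 * w ^ 6 * (1 - w) ^ 11 + 3241956952 * w ^ 7 * (1 - w) ^ 10
      + 3201925152 * w ^ 8 * (1 - w) ^ 9 + 2399227008 * w ^ 9 * (1 - w) ^ 8
      + 1571745392 * w ^ 10 * (1 - w) ^ 7 + 827818960 * w ^ 11 * (1 - w) ^ 6
      + 360304384 * w ^ 12 * (1 - w) ^ 5 + 135794048 * w ^ 13 * (1 - w) ^ 4
      + 38970112 * w ^ 14 * (1 - w) ^ 3 + 9067264 * w ^ 15 * (1 - w) ^ 2
      + 1806336 * w ^ 16 * (1 - w) + 147456 * w ^ 17 := by unfold H; ring
  rw [e]
  have h2 : 0 ≤ 1 - w := by linarith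
  rcases h0.eq_or_lt with rfl | h
  · norm_num
  · positivity

lemma E_pos {w : ℝ} (h0 : 0 ≤ w) (h1 : w ≤ 1) : 0 < E w := by
  have e : E w = 57 / 6400 * (1 - w) ^ 4 + 547 / 320 * w * (1 - w) ^ 3
      + 3187 / 1600 * w ^ 2 * (1 - w) ^ 2 + 59 / 50 * w ^ 3 * (1 - w)
      + 117 / 400 * w ^ 4 := by unfold E; ring
  rw [e]
  have h2 : 0 ≤ 1 - w := by linarith
  rcases h0.eq_or_lt with rfl | h
  · norm_num
  · positivity

/-! Functions of the form `(1 - w)² R w` on `[0,1]`, extended by `0` to the right and by a `C¹`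
function to the left. -/

lemma contDiff_one_of {f f' : ℝ → ℝ} (h : ∀ x, HasDerivAt f (f' x) x) (hc : Continuous f') :
    ContDiff ℝ 1 f := by
  rw [contDiff_one_iff_deriv]
  have e1 : deriv f = f' := funext fun x => (h x).deriv
  exact ⟨fun x => (h x).differentiableAt, by rw [e1]; exact hc⟩

/-- the set where the rational functions are regular -/
def U : Set ℝ := {w | Y1' w ≠ 0 ∧ Y2' w ≠ 0 ∧ E w ≠ 0}

lemma U_open : IsOpen U := by
  have h1 : Continuous Y1' := by unfold Y1'; fun_prop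
  have h2 : Continuous Y2' := by unfold Y2'; fun_prop
  have h3 : Continuous E := by unfold E; fun_prop
  exact (isOpen_ne_fun h1 continuous_const).inter
    ((isOpen_ne_fun h2 continuous_const).inter (isOpen_ne_fun h3 continuous_const))

lemma mem_U {w : ℝ} (h0 : 0 ≤ w) (h1 : w ≤ 1) : w ∈ U :=
  ⟨(Y1'_pos h0 h1).ne', (Y2'_pos h0 h1).ne', (E_pos h0 h1).ne'⟩

/-- the middle piece -/
noncomputable def mid (R : ℝ → ℝ) : ℝ → ℝ := fun w => (1 - w) ^ 2 * R w

section ext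
variable {R : ℝ → ℝ} (hR : ContDiffOn ℝ 1 R U)
include hR

lemma mid_contDiffOn : ContDiffOn ℝ 1 (mid R) U :=
  ((contDiff_const.sub contDiff_id).pow 2).contDiffOn.mul hR

lemma mid_hasDerivAt {w : ℝ} (hw : w ∈ U) : HasDerivAt (mid R) (deriv (mid R) w) w :=
  (((mid_contDiffOn hR).contDiffAt (U_open.mem_nhds hw)).differentiableAt
    (by norm_num)).hasDerivAt

lemma mid_deriv_cont {w : ℝ} (hw : w ∈ U) : ContinuousAt (deriv (mid R)) w :=
  ((mid_contDiffOn hR).continuousOn_deriv_of_isOpen U_open le_rfl).continuousAt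
    (U_open.mem_nhds hw)

lemma mid_deriv_one : deriv (mid R) 1 = 0 := by
  have hd : DifferentiableAt ℝ R 1 :=
    (hR.contDiffAt (U_open.mem_nhds (mem_U zero_le_one le_rfl))).differentiableAt (by norm_num)
  have h1 : HasDerivAt (fun w : ℝ => (1 - w) ^ 2) 0 1 := by
    have h2 := ((hasDerivAt_id (1 : ℝ)).const_sub 1).pow 2
    refine (h2.congr_deriv ?_).congr_of_eventuallyEq (Eventually.of_forall fun x => ?_)
    · simp
    · simp
  have h3 := (h1.mul hd.hasDerivAt).deriv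
  have e : mid R = (fun w : ℝ => (1 - w) ^ 2) * R := rfl
  rw [e, h3]
  simp

/-- extension of `mid R` by `g` to the left of `0` and `0` to the right of `1` is `C¹` -/
lemma ext_contDiff {g g' : ℝ → ℝ} (hg : ∀ x, HasDerivAt g (g' x) x) (hg' : Continuous g')
    (h0 : g 0 = mid R 0) (h1 : g' 0 = deriv (mid R) 0) :
    ContDiff ℝ 1 (glue (glue g (mid R) 0) (fun _ => 0) 1) := by
  refine contDiff_one_of (f' := glue (glue g' (deriv (mid R)) 0) (fun _ => 0) 1) (fun x => ?_) ?_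
  · refine glue_hasDerivAt (fun hx => ?_) (fun _ => hasDerivAt_const x 0) ?_ ?_
    · exact glue_hasDerivAt (fun _ => hg x) (fun hx0 => mid_hasDerivAt hR (mem_U hx0 hx)) h0 h1
    · rw [glue_gt one_pos]; simp [mid]
    · rw [glue_gt one_pos]; exact mid_deriv_one hR
  · rw [continuous_iff_continuousAt]
    intro x
    refine glue_continuousAt (fun hx => ?_) (fun _ => continuousAt_const) ?_
    · exact glue_continuousAt (fun _ => hg'.continuousAt)
        (fun hx0 => mid_deriv_cont hR (mem_U hx0 hx)) h1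
    · rw [glue_gt one_pos]; exact mid_deriv_one hR

end ext

noncomputable def RD : ℝ → ℝ := fun w => H w / (Y1' w ^ 3 * Y2' w ^ 3 * E w)
noncomputable def RA : ℝ → ℝ := fun w => M2 w / Y2' w ^ 3 + RD w * (Y2 w / 100)

lemma RD_contDiffOn : ContDiffOn ℝ 1 RD U := by
  have h1 : ContDiff ℝ 1 Y1' := by unfold Y1'; fun_prop
  have h2 : ContDiff ℝ 1 Y2' := by unfold Y2'; fun_prop
  have h3 : ContDiff ℝ 1 E := by unfold E; fun_prop
  have h4 : ContDiff ℝ 1 H := by unfold H; fun_prop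
  refine ContDiffOn.div h4.contDiffOn (((h1.pow 3).mul (h2.pow 3)).mul h3).contDiffOn ?_
  rintro x ⟨a, b, c⟩
  exact mul_ne_zero (mul_ne_zero (pow_ne_zero 3 a) (pow_ne_zero 3 b)) c

lemma RA_contDiffOn : ContDiffOn ℝ 1 RA U := by
  have h2 : ContDiff ℝ 1 Y2' := by unfold Y2'; fun_prop
  have h3 : ContDiff ℝ 1 M2 := by unfold M2; fun_prop
  have h4 : ContDiff ℝ 1 Y2 := by unfold Y2; fun_prop
  refine ContDiffOn.add ?_ (RD_contDiffOn.mul (h4.div_const 100).contDiffOn)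
  refine ContDiffOn.div h3.contDiffOn (h2.pow 3).contDiffOn ?_
  rintro x ⟨a, b, c⟩
  exact pow_ne_zero 3 b

lemma mid_RD_zero_pos : 0 < mid RD 0 := by
  unfold mid RD
  have h1 := Y1'_pos le_rfl zero_le_one
  have h2 := Y2'_pos le_rfl zero_le_one
  have h3 := E_pos le_rfl zero_le_one
  have h4 := H_pos le_rfl zero_le_one
  positivity

/-- `D` -/
noncomputable def gD : ℝ → ℝ := fun w => mid RD 0 * Real.exp (deriv (mid RD) 0 / mid RD 0 * w)
noncomputable def DD : ℝ → ℝ := glue (glue gD (mid RD) 0) (fun _ => 0) 1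
noncomputable def gA : ℝ → ℝ := fun w => mid RA 0 + deriv (mid RA) 0 * w
noncomputable def AA : ℝ → ℝ := glue (glue gA (mid RA) 0) (fun _ => 0) 1

lemma DD_contDiff : ContDiff ℝ 1 DD := by
  refine ext_contDiff RD_contDiffOn
    (g' := fun w => mid RD 0 * (Real.exp (deriv (mid RD) 0 / mid RD 0 * w) *
      (deriv (mid RD) 0 / mid RD 0))) (fun x => ?_) (by fun_prop) ?_ ?_
  · have h1 : HasDerivAt (fun w : ℝ => deriv (mid RD) 0 / mid RD 0 * w)
        (deriv (mid RD) 0 / mid RD 0) x := by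
      simpa using (hasDerivAt_id x).const_mul (deriv (mid RD) 0 / mid RD 0)
    exact h1.exp.const_mul _
  · simp [gD]
  · have := mid_RD_zero_pos.ne'
    simp only [mul_zero, Real.exp_zero, one_mul]
    field_simp

lemma AA_contDiff : ContDiff ℝ 1 AA := by
  refine ext_contDiff RA_contDiffOn (g' := fun _ => deriv (mid RA) 0) (fun x => ?_)
    continuous_const ?_ rfl
  · have h1 := ((hasDerivAt_id x).const_mul (deriv (mid RA) 0)).const_add (mid RA 0)
    refine h1.congr_deriv ?_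
    ring
  · simp [gA]

lemma DD_mid {w : ℝ} (h0 : 0 ≤ w) (h1 : w ≤ 1) : DD w = mid RD w := by
  unfold DD
  rw [glue_le h1, glue_ge h0 (by simp [gD])]

lemma AA_mid {w : ℝ} (h0 : 0 ≤ w) (h1 : w ≤ 1) : AA w = mid RA w := by
  unfold AA
  rw [glue_le h1, glue_ge h0 (by simp [gA])]

lemma DD_nonneg (w : ℝ) : 0 ≤ DD w := by
  rcases le_or_gt w 0 with h | h
  · unfold DD
    rw [glue_le (by linarith), glue_le h]
    have := mid_RD_zero_pos
    unfold gD
    positivity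
  rcases le_or_gt w 1 with h1 | h1
  · rw [DD_mid h.le h1]
    have a1 := Y1'_pos h.le h1
    have a2 := Y2'_pos h.le h1
    have a3 := E_pos h.le h1
    have a4 := H_pos h.le h1
    unfold mid RD
    positivity
  · unfold DD
    rw [glue_gt h1]

/-- The nonlinearity. -/
noncomputable def ff (r u : ℝ) : ℝ := AA (19 / 10 - u) - DD (19 / 10 - u) * r ^ 2

lemma ff_contDiff : ContDiff ℝ 1 (Function.uncurry ff) := by
  have h : Function.uncurry ff = fun p : ℝ × ℝ =>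
      AA (19 / 10 - p.2) - DD (19 / 10 - p.2) * p.1 ^ 2 := by
    funext p; rfl
  rw [h]
  have h1 : ContDiff ℝ 1 (fun p : ℝ × ℝ => 19 / 10 - p.2) := contDiff_const.sub contDiff_snd
  exact (AA_contDiff.comp h1).sub ((DD_contDiff.comp h1).mul (contDiff_fst.pow 2))

lemma ff_hasDerivAt (r u : ℝ) :
    HasDerivAt (fun t => ff t u) (-(DD (19 / 10 - u) * (2 * r))) r := by
  have h1 : HasDerivAt (fun r : ℝ => r ^ 2) (2 * r) r := by
    simpa using hasDerivAt_pow 2 r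
  exact (h1.const_mul _).const_sub _

lemma F2_eq (w : ℝ) :
    mid RA w - mid RD w * (Y2 w / 100) = (6 * Y2' w ^ 2 - 4 * Y2 w * Y2'' w) / Y2' w ^ 3 := by
  rw [N2_eq]
  unfold mid RA
  ring

lemma F1_eq {w : ℝ} (h0 : 0 ≤ w) (h1 : w ≤ 1) :
    mid RA w - mid RD w * (Y1 w / (6400 / 121)) =
      (6 * Y1' w ^ 2 - 4 * Y1 w * Y1'' w) / Y1' w ^ 3 := by
  have a1 := (Y1'_pos h0 h1).ne'
  have a2 := (Y2'_pos h0 h1).ne'
  have a3 := (E_pos h0 h1).ne'
  have e1 : mid RA w - mid RD w * (Y1 w / (6400 / 121)) =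
      (mid RA w - mid RD w * (Y2 w / 100)) - mid RD w * (w * E w) := by
    rw [← E_eq]; ring
  rw [e1, F2_eq, N1_eq, N2_eq]
  have e2 : mid RD w * (w * E w) = (1 - w) ^ 2 * (w * H w) / (Y1' w ^ 3 * Y2' w ^ 3) := by
    unfold mid RD
    field_simp
  rw [e2, ← H_eq]
  field_simp
  ring

/-- The equation for one set of parameters. -/
lemma eqn (P : Par) {r : ℝ} (h0 : 0 < r) (h1 : r < 1)
    (hF : ∀ w, 0 ≤ w → w ≤ 1 → mid RA w - mid RD w * (P.Y w / P.l) =
      (6 * P.Y' w ^ 2 - 4 * P.Y w * P.Y'' w) / P.Y' w ^ 3) :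
    deriv (deriv P.u) r + (3 - 1) / r * deriv P.u r + P.l * ff r (P.u r) = 0 := by
  have hrad := P.chart.radial (19 / 10) h0.ne'
  change deriv (deriv P.u) r + (3 - 1) / r * deriv P.u r = _ at hrad
  rw [hrad]
  have hX : P.chart.X (P.chart.W (r ^ 2)) = r ^ 2 := P.chart.X_W _
  have hw0 := P.W_pos h0
  have hw1 := P.W_lt h0.le h1
  have hu : 19 / 10 - P.u r = P.chart.W (r ^ 2) := by
    unfold Par.u Chart.u; ring
  unfold ff
  rw [hu]
  generalize P.chart.W (r ^ 2) = w at *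
  change P.X w = r ^ 2 at hX
  change -(6 * P.X' w ^ 2 - 4 * P.X w * P.X'' w) / P.X' w ^ 3 +
    P.l * (AA w - DD w * r ^ 2) = 0
  rw [← hX]
  have hl := P.hl
  rcases le_or_gt w 1 with h | h
  · rw [P.X_mid hw0.le h, P.X'_mid hw0.le h, P.X''_mid hw0.le h, AA_mid hw0.le h,
      DD_mid hw0.le h, hF w hw0.le h]
    have := (P.pos w hw0.le h).ne'
    have hl' := hl.ne'
    field_simp
    ring
  · rw [P.X_out h hw1.le, P.X'_out h hw1.le, P.X''_out h hw1.le]
    have hA : AA w = 0 := by unfold AA; rw [glue_gt h]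
    have hD : DD w = 0 := by unfold DD; rw [glue_gt h]
    rw [hA, hD]
    have hb : P.b - w ≠ 0 := by
      have : w < P.b := by linarith [P.hb]
      exact (sub_pos.2 this).ne'
    have hk := P.hk.ne'
    field_simp
    ring

end Pool.Agent.H223R3.Radial
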