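import Mathlib

set_option autoImplicit false

open Set Filter Topology

namespace Pool.Agent.H223R3.Radial

/-- The function equal to `f` on `(-∞, a]` and to `g` on `(a, ∞)`. -/
noncomputable def glue (f g : ℝ → ℝ) (a : ℝ) : ℝ → ℝ := fun x => if x ≤ a then f x else g x

lemma glue_le {f g : ℝ → ℝ} {a x : ℝ} (h : x ≤ a) : glue f g a x = f x := by
  simp [glue, h]

lemma glue_gt {f g : ℝ → ℝ} {a x : ℝ} (h : a < x) : glue f g a x = g x := by
  simp [glue, not_le.2 h]

lemma glue_ge {f g : ℝ → ℝ} {a x : ℝ} (h : a ≤ x) (h0 : f a = g a) : glue f g a x = g x := by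
  rcases h.eq_or_lt with rfl | h
  · rw [glue_le le_rfl, h0]
  · exact glue_gt h

lemma glue_hasDerivAt {f g f' g' : ℝ → ℝ} {a x : ℝ}
    (hf : x ≤ a → HasDerivAt f (f' x) x) (hg : a ≤ x → HasDerivAt g (g' x) x)
    (h0 : f a = g a) (h1 : f' a = g' a) :
    HasDerivAt (glue f g a) (glue f' g' a x) x := by
  rcases lt_trichotomy x a with h | h | h
  · rw [glue_le h.le]
    refine (hf h.le).congr_of_eventuallyEq ?_
    filter_upwards [Iio_mem_nhds h] with y hy
    exact glue_le (le_of_lt hy)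
  · subst h
    rw [glue_le le_rfl]
    have hl : HasDerivWithinAt (glue f g x) (f' x) (Iic x) x := by
      refine ((hf le_rfl).hasDerivWithinAt).congr (fun y hy => glue_le hy) (glue_le le_rfl)
    have hr : HasDerivWithinAt (glue f g x) (f' x) (Ici x) x := by
      rw [h1]
      refine ((hg le_rfl).hasDerivWithinAt).congr (fun y hy => glue_ge hy h0) (glue_ge le_rfl h0)
    have := hl.union hr
    rwa [Iic_union_Ici, hasDerivWithinAt_univ] at this
  · rw [glue_gt h]
    refine (hg h.le).congr_of_eventuallyEq ?_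
    filter_upwards [Ioi_mem_nhds h] with y hy
    exact glue_gt hy

lemma glue_continuousAt {f g : ℝ → ℝ} {a x : ℝ}
    (hf : x ≤ a → ContinuousAt f x) (hg : a ≤ x → ContinuousAt g x)
    (h0 : f a = g a) : ContinuousAt (glue f g a) x := by
  rcases lt_trichotomy x a with h | h | h
  · refine (hf h.le).congr ?_
    filter_upwards [Iio_mem_nhds h] with y hy
    exact (glue_le (le_of_lt hy)).symm
  · subst h
    have hl : ContinuousWithinAt (glue f g x) (Iic x) x := by
      refine ((hf le_rfl).continuousWithinAt).congr (fun y hy => glue_le hy) (glue_le le_rfl)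
    have hr : ContinuousWithinAt (glue f g x) (Ici x) x := by
      refine ((hg le_rfl).continuousWithinAt).congr (fun y hy => glue_ge hy h0) (glue_ge le_rfl h0)
    have := hl.union hr
    rwa [Iic_union_Ici, continuousWithinAt_univ] at this
  · refine (hg h.le).congr ?_
    filter_upwards [Ioi_mem_nhds h] with y hy
    exact (glue_gt hy).symm

/-- A function with explicit continuous second derivative is `C²`. -/
lemma contDiff_two {f f' f'' : ℝ → ℝ} (h : ∀ x, HasDerivAt f (f' x) x)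
    (h' : ∀ x, HasDerivAt f' (f'' x) x) (hc : Continuous f'') : ContDiff ℝ 2 f := by
  have e1 : deriv f = f' := funext fun x => (h x).deriv
  have e2 : deriv f' = f'' := funext fun x => (h' x).deriv
  have h1 : ContDiff ℝ 1 f' := by
    rw [contDiff_one_iff_deriv]
    exact ⟨fun x => (h' x).differentiableAt, by rw [e2]; exact hc⟩
  have : ContDiff ℝ (1 + 1) f := by
    rw [contDiff_succ_iff_deriv]
    refine ⟨fun x => (h x).differentiableAt, by simp, by rw [e1]; exact h1⟩
  exact this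

/-- Data of a change of variable: a `C²` increasing bijection of the line. -/
structure Chart where
  X : ℝ → ℝ
  X' : ℝ → ℝ
  X'' : ℝ → ℝ
  hX : ∀ x, HasDerivAt X (X' x) x
  hX' : ∀ x, HasDerivAt X' (X'' x) x
  hX'' : Continuous X''
  pos : ∀ x, 0 < X' x
  surj : Function.Surjective X

namespace Chart

variable (C : Chart)

lemma strictMono : StrictMono C.X :=
  strictMono_of_deriv_pos fun x => by rw [(C.hX x).deriv]; exact C.pos x

/-- The bijection as a homeomorphism. -/
noncomputable def homeo : ℝ ≃ₜ ℝ :=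
  (StrictMono.orderIsoOfSurjective C.X C.strictMono C.surj).toHomeomorph

lemma homeo_apply (x : ℝ) : C.homeo x = C.X x := rfl

/-- The inverse function. -/
noncomputable def W : ℝ → ℝ := C.homeo.symm

lemma X_W (x : ℝ) : C.X (C.W x) = x := C.homeo.apply_symm_apply x

lemma W_X (x : ℝ) : C.W (C.X x) = x := C.homeo.symm_apply_apply x

lemma W_strictMono : StrictMono C.W := by
  intro x y hxy
  by_contra h
  have := C.strictMono.monotone (not_lt.1 h)
  rw [C.X_W, C.X_W] at this
  exact absurd hxy (not_lt.2 this)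

lemma contDiff_W : ContDiff ℝ 2 C.W :=
  Homeomorph.contDiff_symm_deriv C.homeo (fun x => (C.pos x).ne') C.hX
    (contDiff_two C.hX C.hX' C.hX'')

lemma hasDerivAt_W (x : ℝ) : HasDerivAt C.W (C.X' (C.W x))⁻¹ x := by
  refine HasDerivAt.of_local_left_inverse C.homeo.symm.continuous.continuousAt
    (C.hX (C.W x)) (C.pos _).ne' ?_
  exact Eventually.of_forall fun y => C.X_W y

/-- The radial profile `u(r) = α - W(r²)`. -/
noncomputable def u (α : ℝ) : ℝ → ℝ := fun r => α - C.W (r ^ 2)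

lemma contDiff_u (α : ℝ) : ContDiff ℝ 2 (C.u α) :=
  contDiff_const.sub (C.contDiff_W.comp (contDiff_id.pow 2))

lemma hasDerivAt_u (α r : ℝ) : HasDerivAt (C.u α) (-(2 * r * (C.X' (C.W (r ^ 2)))⁻¹)) r := by
  have h1 : HasDerivAt (fun r : ℝ => r ^ 2) (2 * r) r := by
    simpa using hasDerivAt_pow 2 r
  have h2 : HasDerivAt (fun r => C.W (r ^ 2)) ((C.X' (C.W (r ^ 2)))⁻¹ * (2 * r)) r :=
    HasDerivAt.comp r (C.hasDerivAt_W (r ^ 2)) h1
  have h3 := h2.const_sub α
  refine h3.congr_deriv ?_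
  ring

lemma deriv_u (α : ℝ) : deriv (C.u α) = fun r => -(2 * r * (C.X' (C.W (r ^ 2)))⁻¹) :=
  funext fun r => (C.hasDerivAt_u α r).deriv

lemma deriv2_u (α r : ℝ) : deriv (deriv (C.u α)) r =
    -2 / C.X' (C.W (r ^ 2)) +
      4 * r ^ 2 * C.X'' (C.W (r ^ 2)) / (C.X' (C.W (r ^ 2))) ^ 3 := by
  rw [C.deriv_u]
  have h1 : HasDerivAt (fun r : ℝ => r ^ 2) (2 * r) r := by
    simpa using hasDerivAt_pow 2 r
  have h2 : HasDerivAt (fun r => C.W (r ^ 2)) ((C.X' (C.W (r ^ 2)))⁻¹ * (2 * r)) r :=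
    HasDerivAt.comp r (C.hasDerivAt_W (r ^ 2)) h1
  have h3 : HasDerivAt (fun r => C.X' (C.W (r ^ 2)))
      (C.X'' (C.W (r ^ 2)) * ((C.X' (C.W (r ^ 2)))⁻¹ * (2 * r))) r :=
    HasDerivAt.comp r (C.hX' (C.W (r ^ 2))) h2
  have hne : C.X' (C.W (r ^ 2)) ≠ 0 := (C.pos _).ne'
  have h4 := h3.inv hne
  have h5 : HasDerivAt (fun r : ℝ => 2 * r) 2 r := by
    simpa using (hasDerivAt_id r).const_mul 2
  have h6 := (h5.mul h4).neg
  have h7 : deriv (fun r => -(2 * r * (C.X' (C.W (r ^ 2)))⁻¹)) r = _ := h6.deriv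
  rw [h7]
  simp only [Pi.inv_apply]
  field_simp
  ring

/-- The radial operator in dimension three, in terms of the chart. -/
lemma radial (α : ℝ) {r : ℝ} (hr : r ≠ 0) :
    deriv (deriv (C.u α)) r + (3 - 1) / r * deriv (C.u α) r =
      -(6 * C.X' (C.W (r ^ 2)) ^ 2 - 4 * C.X (C.W (r ^ 2)) * C.X'' (C.W (r ^ 2))) /
        (C.X' (C.W (r ^ 2))) ^ 3 := by
  rw [C.deriv2_u, C.deriv_u, C.X_W]
  have hne : C.X' (C.W (r ^ 2)) ≠ 0 := (C.pos _).ne'
  field_simp
  ring

end Chart

end Pool.Agent.H223R3.Radial
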